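import Pool.Agent.H7.GV.Stmts

/-!
Row BUD9 of the board gv9: copy of `Pool/Agent/H22/GU/BUD.lean` (helper22) with other numbers.
-/

set_option autoImplicit false

open Finset

namespace Pool.GV7

open Pool.Agent.H23.KT Pool.Agent.H46.KW Pool.KQ Pool.GT7 Pool.GU7

private lemma BUD9_kc {V : Type} [Fintype V] [DecidableEq V] (G : SimpleGraph V) (p w a : ℕ)
    (e C : ℝ) (v z : V) (P : Fin (p + 3) → Finset V) (U : Finset V) (N : ℕ)
    (hS : Str G p a e C (nb G univ v) P U) (hN : (nb G univ v).card ≤ N) :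
    ((Pool.KR.co G v z).card : ℝ) ≤ ((nb G (un P) z).card : ℝ) + C ∧
    (kc G (Pool.KR.co G v z) (w + 1) : ℝ) ≤
      (kc G (nb G (un P) z) (w + 1) : ℝ) + (U.card : ℝ) * (N : ℝ) ^ w := by
  have hsub : Pool.KR.co G v z ⊆ nb G univ v := nb_subset G _ _
  have hdiff : Pool.KR.co G v z \ (Pool.KR.co G v z ∩ U) ⊆ nb G (un P) z := by
    intro x hx
    rw [mem_sdiff, mem_inter] at hx
    obtain ⟨h1, h2⟩ := hx
    have h3 : x ∉ U := fun h => h2 ⟨h1, h⟩
    have h4 : x ∈ nb G univ v ∧ G.Adj z x := (mem_nb G).1 h1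
    rcases (hS.cov x).1 h4.1 with h5 | ⟨i, h5⟩
    · exact absurd h5 h3
    · rw [mem_nb]
      exact ⟨mem_biUnion.2 ⟨i, mem_univ _, h5⟩, h4.2⟩
  constructor
  · have h1 : (Pool.KR.co G v z).card ≤ (nb G (un P) z).card + U.card := by
      have h2 : Pool.KR.co G v z ⊆ nb G (un P) z ∪ U := by
        intro x hx
        rw [mem_union]
        by_cases hU : x ∈ U
        · exact Or.inr hU
        · exact Or.inl (hdiff (mem_sdiff.2 ⟨hx, fun h => hU (mem_inter.1 h).2⟩))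
      exact (card_le_card h2).trans (card_union_le _ _)
    have h2 : ((Pool.KR.co G v z).card : ℝ) ≤ ((nb G (un P) z).card : ℝ) + (U.card : ℝ) := by
      exact_mod_cast h1
    linarith [hS.cU]
  · have h1 := kc_le_sum (G := G) (Pool.KR.co G v z) w (Pool.KR.co G v z ∩ U) inter_subset_left
    have h2 : ∑ u ∈ Pool.KR.co G v z ∩ U, kc G (nb G (Pool.KR.co G v z) u) w ≤
        U.card * N ^ w := by
      have h3 : ∀ u ∈ Pool.KR.co G v z ∩ U, kc G (nb G (Pool.KR.co G v z) u) w ≤ N ^ w := by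
        intro u _
        have h4 : (nb G (Pool.KR.co G v z) u).card ≤ N :=
          (card_le_card ((nb_subset G _ _).trans hsub)).trans hN
        exact (kc_le_choose G _ _).trans ((Nat.choose_le_pow _ _).trans (Nat.pow_le_pow_left h4 _))
      calc ∑ u ∈ Pool.KR.co G v z ∩ U, kc G (nb G (Pool.KR.co G v z) u) w
          ≤ (Pool.KR.co G v z ∩ U).card • N ^ w := sum_le_card_nsmul _ _ _ h3
        _ ≤ U.card * N ^ w := by
          rw [smul_eq_mul]
          exact Nat.mul_le_mul_right _ (card_le_card inter_subset_right)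
    have h3 : kc G (Pool.KR.co G v z \ (Pool.KR.co G v z ∩ U)) (w + 1) ≤
        kc G (nb G (un P) z) (w + 1) := kc_mono G hdiff _
    have h4 : kc G (Pool.KR.co G v z) (w + 1) ≤ kc G (nb G (un P) z) (w + 1) + U.card * N ^ w := by
      omega
    exact_mod_cast h4

theorem BUD9_thm (hNDM : NDM9Stmt) (hNDB : NDB9Stmt) (hBDA : BDA9Stmt) : BUD9Stmt := by
  intro p w r hP C₀ hC₀
  obtain ⟨K, hK, hB⟩ := hBDA p w r hP
  obtain ⟨eM, heM, hM⟩ := hNDM p w r hP
  obtain ⟨eB, heB, hD⟩ := hNDB p w r hP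
  have hb : (0 : ℝ) < (p : ℝ) + 3 := by positivity
  obtain ⟨s, hs⟩ : ∃ s : ℝ, s = 1 / (32 * ((p : ℝ) + 3) ^ 2) := ⟨_, rfl⟩
  have hs0 : 0 < s := by rw [hs]; positivity
  obtain ⟨c, hc⟩ : ∃ c : ℝ, c = ((p + 2).choose (w + 1) : ℝ) := ⟨_, rfl⟩
  have hc0 : 0 ≤ c := by rw [hc]; positivity
  obtain ⟨A₀, hA₀⟩ : ∃ x : ℝ, x = 2 * (K + ((w : ℝ) + 2) * C₀) / s := ⟨_, rfl⟩
  have hA00 : 0 < A₀ := by rw [hA₀]; positivity
  have hA0s : A₀ * s = 2 * (K + ((w : ℝ) + 2) * C₀) := by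
    rw [hA₀, div_mul_cancel₀ _ hs0.ne']
  have he1 : 0 < e1 p := by unfold e1; positivity
  refine ⟨C₀ + A₀ * c, by positivity, min eM (min eB (e1 p)), by positivity,
    (min_le_right _ _).trans (min_le_right _ _), ?_⟩
  intro C
  obtain ⟨aM, haM⟩ := hM C
  obtain ⟨aB, haB⟩ := hD C
  obtain ⟨aA, haA⟩ := hB (s / 4) C (by positivity)
  obtain ⟨a1, ha1⟩ := exists_nat_ge (12 * C)
  obtain ⟨a2, ha2⟩ := exists_nat_ge (4 / s * (C * ((p : ℝ) + 4) ^ w))
  refine ⟨aM + aB + aA + a1 + a2 + r + 1, ?_⟩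
  intro a ha V _ _ G hG e he0 he z A P U hA hStr hdf
  have haR : (0 : ℝ) ≤ (a : ℝ) := Nat.cast_nonneg a
  have hp1 : (0 : ℝ) < (p : ℝ) + 1 := by positivity
  have hC1 : C ≤ 1 / 12 * a := by
    have h1 : (a1 : ℝ) ≤ a := by exact_mod_cast (by omega : a1 ≤ a)
    linarith
  have hC2 : C * ((p : ℝ) + 4) ^ w ≤ s / 4 * a := by
    have h1 : (a2 : ℝ) ≤ a := by exact_mod_cast (by omega : a2 ≤ a)
    have h2 : 4 / s * (C * ((p : ℝ) + 4) ^ w) ≤ a := ha2.trans h1
    have h3 : s / 4 * (4 / s * (C * ((p : ℝ) + 4) ^ w)) ≤ s / 4 * a :=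
      mul_le_mul_of_nonneg_left h2 (by positivity)
    have h4 : s / 4 * (4 / s * (C * ((p : ℝ) + 4) ^ w)) = C * ((p : ℝ) + 4) ^ w := by
      field_simp
    linarith
  have heM' : e ≤ eM := he.trans (min_le_left _ _)
  have heB' : e ≤ eB := he.trans ((min_le_right _ _).trans (min_le_left _ _))
  have heE' : e ≤ e1 p := he.trans ((min_le_right _ _).trans (min_le_right _ _))
  classical
  have hnn : ∀ v, 0 ≤ nd G p w r a (un (P v)) z := fun v => le_max_left _ _
  -- the payers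
  obtain ⟨A', hA'⟩ : ∃ X : Finset V, X = A.filter (fun v => 0 < nd G p w r a (un (P v)) z) :=
    ⟨_, rfl⟩
  have hsum : ∑ v ∈ A, nd G p w r a (un (P v)) z = ∑ v ∈ A', nd G p w r a (un (P v)) z := by
    rw [hA']
    symm
    apply sum_subset (filter_subset _ _)
    intro v hv hv2
    rw [mem_filter, not_and] at hv2
    exact le_antisymm (not_lt.1 (hv2 hv)) (hnn v)
  obtain ⟨T, hT⟩ : ∃ x : ℝ, x = (a : ℝ) ^ (w + 1) := ⟨_, rfl⟩
  have hT0 : 0 ≤ T := by rw [hT]; positivity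
  have key : ∀ v ∈ A', ((Pool.KR.co G v z).card : ℝ) ≤ m9 p * a ∧
      ((w : ℝ) + 2) * nd G p w r a (un (P v)) z ≤
        (c * T - (kc G (Pool.KR.co G v z) (w + 1) : ℝ)) - 3 / 4 * s * T := by
    intro v hv
    rw [hA', mem_filter] at hv
    obtain ⟨hv1, hv2⟩ := hv
    obtain ⟨hS, hz⟩ := hStr v hv1
    have hcb : CB G (nb G univ v) (p + 3) := CB.nb hG.cb (mem_univ v)
    have hn : ((nb G (un (P v)) z).card : ℝ) < (m9 p - 1 / 12) * a := by
      by_contra hcon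
      have := haM a (by omega) G e (nb G univ v) (P v) (U v) hS he0 heM' hcb z hz
        (not_lt.1 hcon)
      exact hv2.ne' this
    obtain ⟨h1, h2⟩ := BUD9_kc G p w a e C v z (P v) (U v) ((p + 3) * a + r) hS (hG.deg v)
    have h3 := haB a (by omega) G e (nb G univ v) (P v) (U v) hS he0 heB' hcb z hz
      (by
        have : 0 ≤ 1 / 12 * (a : ℝ) := by positivity
        linarith) hv2
    rw [← hs, ← hc, ← hT] at h3
    have h4 : ((U v).card : ℝ) * (((p + 3) * a + r : ℕ) : ℝ) ^ w ≤ s / 4 * T := by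
      have h5 : (((p + 3) * a + r : ℕ) : ℝ) ≤ ((p : ℝ) + 4) * a := by
        have h6 : (p + 3) * a + r ≤ (p + 4) * a := by
          have : r ≤ a := by omega
          nlinarith
        exact_mod_cast h6
      have h6 : (((p + 3) * a + r : ℕ) : ℝ) ^ w ≤ (((p : ℝ) + 4) * a) ^ w :=
        pow_le_pow_left₀ (Nat.cast_nonneg _) h5 _
      calc ((U v).card : ℝ) * (((p + 3) * a + r : ℕ) : ℝ) ^ w
          ≤ ((U v).card : ℝ) * (((p : ℝ) + 4) * a) ^ w :=
            mul_le_mul_of_nonneg_left h6 (Nat.cast_nonneg _)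
        _ ≤ C * (((p : ℝ) + 4) * a) ^ w :=
            mul_le_mul_of_nonneg_right hS.cU (by positivity)
        _ = (C * ((p : ℝ) + 4) ^ w) * (a : ℝ) ^ w := by rw [mul_pow]; ring
        _ ≤ (s / 4 * a) * (a : ℝ) ^ w := mul_le_mul_of_nonneg_right hC2 (by positivity)
        _ = s / 4 * T := by rw [hT, pow_succ]; ring
    constructor
    · linarith
    · linarith
  have hbda := haA a (by omega) G hG z A' (by
      rw [hA']
      exact (filter_subset _ _).trans hA) (by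
      intro v hv
      have h1 := (key v hv).1
      have hv' := hv
      rw [hA', mem_filter] at hv'
      exact ⟨e, P v, U v, (hStr v hv'.1).1, he0, heE', h1⟩)
  rw [← hc, ← hT] at hbda
  rw [← hT] at hdf ⊢
  rw [hsum]
  have h5 : ((w : ℝ) + 2) * ∑ v ∈ A', nd G p w r a (un (P v)) z ≤
      ∑ v ∈ A', (c * T - (kc G (Pool.KR.co G v z) (w + 1) : ℝ)) - A'.card * (3 / 4 * s * T) := by
    rw [mul_sum]
    calc ∑ v ∈ A', ((w : ℝ) + 2) * nd G p w r a (un (P v)) z
        ≤ ∑ v ∈ A', ((c * T - (kc G (Pool.KR.co G v z) (w + 1) : ℝ)) - 3 / 4 * s * T) :=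
          sum_le_sum (fun v hv => (key v hv).2)
      _ = _ := by rw [sum_sub_distrib, sum_const, nsmul_eq_mul]
  by_cases hcase : A₀ ≤ (A'.card : ℝ)
  · have h6 : 2 * (K + ((w : ℝ) + 2) * C₀) * T ≤ (A'.card : ℝ) * s * T := by
      apply mul_le_mul_of_nonneg_right _ hT0
      rw [← hA0s]
      exact mul_le_mul_of_nonneg_right hcase hs0.le
    have hw2 : (0 : ℝ) < (w : ℝ) + 2 := by positivity
    have h7 : ((w : ℝ) + 2) * ∑ v ∈ A', nd G p w r a (un (P v)) z ≤
        ((w : ℝ) + 2) * (df G p w r a (nb G univ z) - C₀ * T) := by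
      linarith
    exact le_of_mul_le_mul_left h7 hw2
  · have h6 : ∀ v ∈ A', nd G p w r a (un (P v)) z ≤ c * T := by
      intro v hv
      have h7 := (key v hv).2
      have h8 : (0 : ℝ) ≤ (kc G (Pool.KR.co G v z) (w + 1) : ℝ) := Nat.cast_nonneg _
      have h9 : 0 ≤ 3 / 4 * s * T := by positivity
      have h10 : 0 ≤ ((w : ℝ) + 1) * nd G p w r a (un (P v)) z := mul_nonneg (by positivity) (hnn v)
      linarith
    have h7 : ∑ v ∈ A', nd G p w r a (un (P v)) z ≤ (A'.card : ℝ) * (c * T) := by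
      calc ∑ v ∈ A', nd G p w r a (un (P v)) z ≤ ∑ _v ∈ A', c * T := sum_le_sum h6
        _ = _ := by rw [sum_const, nsmul_eq_mul]
    have h8 : (A'.card : ℝ) * (c * T) ≤ A₀ * (c * T) :=
      mul_le_mul_of_nonneg_right (not_le.1 hcase).le (by positivity)
    linarith

end Pool.GV7
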